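import Pool.Agent.H23.GLM.Defs

/-! Euler products of `L`-data. -/

set_option autoImplicit false

open Complex Set Filter Topology Metric

namespace Pool.Agent.H61.GLM

open Pool.Agent.H23.GLM

/-- The Euler product of `L(s, π)` over the primes, absolutely convergent for `Re s > 1`, with local
parameters `α_j(p)` of modulus at most `p^(1/2)` (Jacquet and Shalika). -/
def HasEuler {m : ℕ} (π : LData m) : Prop :=
  ∃ α : Nat.Primes → Fin m → ℂ, (∀ p j, ‖α p j‖ ≤ (p : ℝ) ^ (1 / 2 : ℝ)) ∧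
    ∀ s : ℂ, 1 < s.re → (Summable fun p : Nat.Primes => ∑ j, ‖α p j‖ * (p : ℝ) ^ (-s.re)) ∧
      HasProd (fun p : Nat.Primes => ∏ j, (1 - α p j * (p : ℂ) ^ (-s))⁻¹) (π.L s)

variable {m : ℕ}

section

variable {α : Nat.Primes → Fin m → ℂ} (hα : ∀ p j, ‖α p j‖ ≤ (p : ℝ) ^ (1 / 2 : ℝ))

include hα

lemma norm_term (p : Nat.Primes) (j : Fin m) (s : ℂ) :
    ‖α p j * (p : ℂ) ^ (-s)‖ = ‖α p j‖ * (p : ℝ) ^ (-s.re) := by
  rw [norm_mul, Complex.norm_natCast_cpow_of_pos p.prop.pos, neg_re]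

lemma norm_term_le (p : Nat.Primes) (j : Fin m) (s : ℂ) :
    ‖α p j * (p : ℂ) ^ (-s)‖ ≤ (p : ℝ) ^ (1 / 2 - s.re) := by
  have hp : (0:ℝ) < p := by exact_mod_cast p.prop.pos
  rw [norm_term hα, sub_eq_add_neg, Real.rpow_add hp]
  have := hα p j
  gcongr

lemma norm_term_lt_one (p : Nat.Primes) (j : Fin m) {s : ℂ} (hs : 1 < s.re) :
    ‖α p j * (p : ℂ) ^ (-s)‖ ≤ (2 : ℝ) ^ (-1 / 2 : ℝ) := by
  refine (norm_term_le hα p j s).trans ?_
  have hp : (2:ℝ) ≤ p := by exact_mod_cast p.prop.two_le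
  calc (p : ℝ) ^ (1 / 2 - s.re) ≤ (p : ℝ) ^ (-1 / 2 : ℝ) :=
        Real.rpow_le_rpow_of_exponent_le (by linarith) (by linarith)
    _ ≤ (2 : ℝ) ^ (-1 / 2 : ℝ) := Real.rpow_le_rpow_of_nonpos (by norm_num) hp (by norm_num)

end

lemma two_pow_lt : (2 : ℝ) ^ (-1 / 2 : ℝ) ≤ 3 / 4 := by
  have h1 : (2 : ℝ) ^ (-1 / 2 : ℝ) = (Real.sqrt 2)⁻¹ := by
    rw [Real.sqrt_eq_rpow, ← Real.rpow_neg (by norm_num)]
    norm_num
  rw [h1, inv_le_comm₀ (by positivity) (by norm_num)]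
  rw [Real.le_sqrt (by norm_num) (by norm_num)]
  norm_num

lemma norm_log_le_three {z : ℂ} (hz : ‖z‖ ≤ 3 / 4) : ‖Complex.log (1 - z)‖ ≤ 3 * ‖z‖ := by
  have h1 := Complex.norm_log_one_add_le (z := -z) (by rw [norm_neg]; linarith)
  rw [norm_neg, ← sub_eq_add_neg] at h1
  have h2 : (1 - ‖z‖)⁻¹ ≤ 4 := by
    rw [inv_le_comm₀ (by linarith) (by norm_num)]
    linarith
  have h0 := norm_nonneg z
  calc ‖Complex.log (1 - z)‖ ≤ ‖z‖ ^ 2 * (1 - ‖z‖)⁻¹ / 2 + ‖z‖ := h1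
    _ ≤ ‖z‖ ^ 2 * 4 / 2 + ‖z‖ := by gcongr
    _ ≤ 3 * ‖z‖ := by nlinarith

/-- The logarithm of the Euler product. -/
noncomputable def elog (α : Nat.Primes → Fin m → ℂ) (s : ℂ) : ℂ :=
  ∑' p : Nat.Primes, ∑ j, -Complex.log (1 - α p j * (p : ℂ) ^ (-s))

theorem elog_exp {π : LData m} {α : Nat.Primes → Fin m → ℂ}
    (hα : ∀ p j, ‖α p j‖ ≤ (p : ℝ) ^ (1 / 2 : ℝ)) {s : ℂ} (hs : 1 < s.re)
    (h1 : Summable fun p : Nat.Primes => ∑ j, ‖α p j‖ * (p : ℝ) ^ (-s.re))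
    (h2 : HasProd (fun p : Nat.Primes => ∏ j, (1 - α p j * (p : ℂ) ^ (-s))⁻¹) (π.L s)) :
    Complex.exp (elog α s) = π.L s := by
  have hsum : Summable fun p : Nat.Primes => ∑ j, -Complex.log (1 - α p j * (p : ℂ) ^ (-s)) := by
    refine Summable.of_norm_bounded (h1.mul_left 3) fun p => ?_
    rw [Finset.mul_sum]
    refine (norm_sum_le _ _).trans (Finset.sum_le_sum fun j _ => ?_)
    rw [norm_neg, ← norm_term hα]
    exact norm_log_le_three ((norm_term_lt_one hα p j hs).trans two_pow_lt)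
  have h3 := hsum.hasSum.cexp
  have h4 : (Complex.exp ∘ fun p : Nat.Primes => ∑ j, -Complex.log (1 - α p j * (p : ℂ) ^ (-s))) =
      fun p : Nat.Primes => ∏ j, (1 - α p j * (p : ℂ) ^ (-s))⁻¹ := by
    funext p
    simp only [Function.comp]
    rw [Complex.exp_sum]
    refine Finset.prod_congr rfl fun j _ => ?_
    have hne : 1 - α p j * (p : ℂ) ^ (-s) ≠ 0 := by
      intro h0
      have h5 : α p j * (p : ℂ) ^ (-s) = 1 := by linear_combination -h0
      have h6 := (norm_term_lt_one hα p j hs).trans two_pow_lt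
      rw [h5, norm_one] at h6
      norm_num at h6
    rw [Complex.exp_neg, Complex.exp_log hne]
  rw [h4] at h3
  exact h3.unique h2

/-- The uniform constant. -/
noncomputable def Kz (m : ℕ) : ℝ := ∑' p : Nat.Primes, 3 * (m * (p : ℝ) ^ (-3 / 2 : ℝ))

lemma summable_Kz (m : ℕ) : Summable fun p : Nat.Primes => 3 * (m * (p : ℝ) ^ (-3 / 2 : ℝ)) :=
  ((Nat.Primes.summable_rpow.mpr (by norm_num)).mul_left _).mul_left _

lemma Kz_nonneg (m : ℕ) : 0 ≤ Kz m := tsum_nonneg fun p => by positivity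

lemma term_bound {α : Nat.Primes → Fin m → ℂ}
    (hα : ∀ p j, ‖α p j‖ ≤ (p : ℝ) ^ (1 / 2 : ℝ)) {s : ℂ} (hs : 2 ≤ s.re) (p : Nat.Primes) :
    ‖∑ j, -Complex.log (1 - α p j * (p : ℂ) ^ (-s))‖ ≤ 3 * (m * (p : ℝ) ^ (-3 / 2 : ℝ)) := by
  have hp : (2:ℝ) ≤ p := by exact_mod_cast p.prop.two_le
  calc ‖∑ j, -Complex.log (1 - α p j * (p : ℂ) ^ (-s))‖
      ≤ ∑ _j : Fin m, 3 * (p : ℝ) ^ (-3 / 2 : ℝ) := by
        refine (norm_sum_le _ _).trans (Finset.sum_le_sum fun j _ => ?_)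
        rw [norm_neg]
        refine (norm_log_le_three
          ((norm_term_lt_one hα p j (by linarith)).trans two_pow_lt)).trans ?_
        have h1 := norm_term_le hα p j s
        have h2 : (p : ℝ) ^ (1 / 2 - s.re) ≤ (p : ℝ) ^ (-3 / 2 : ℝ) :=
          Real.rpow_le_rpow_of_exponent_le (by linarith) (by linarith)
        linarith
    _ = 3 * (m * (p : ℝ) ^ (-3 / 2 : ℝ)) := by simp; ring

lemma norm_elog_le {α : Nat.Primes → Fin m → ℂ}
    (hα : ∀ p j, ‖α p j‖ ≤ (p : ℝ) ^ (1 / 2 : ℝ)) {s : ℂ} (hs : 2 ≤ s.re) :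
    ‖elog α s‖ ≤ Kz m :=
  tsum_of_norm_bounded (summable_Kz m).hasSum fun p => term_bound hα hs p

lemma elog_diff {α : Nat.Primes → Fin m → ℂ}
    (hα : ∀ p j, ‖α p j‖ ≤ (p : ℝ) ^ (1 / 2 : ℝ)) {s : ℂ} (hs : 2 < s.re) :
    DifferentiableAt ℂ (elog α) s := by
  have hopen : IsOpen {s : ℂ | 2 < s.re} := isOpen_lt continuous_const Complex.continuous_re
  have h := differentiableOn_tsum_of_summable_norm (summable_Kz m) (U := {s : ℂ | 2 < s.re})
    (F := fun (p : Nat.Primes) (s : ℂ) => ∑ j, -Complex.log (1 - α p j * (p : ℂ) ^ (-s)))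
    (fun p s hs => by
      have hs' : 2 < s.re := hs
      refine DifferentiableAt.differentiableWithinAt ?_
      refine DifferentiableAt.fun_sum fun j _ => ?_
      refine DifferentiableAt.neg (DifferentiableAt.clog ?_ ?_)
      · have : DifferentiableAt ℂ (fun s : ℂ => (p : ℂ) ^ (-s)) s :=
          differentiableAt_id.neg.const_cpow (Or.inl (by exact_mod_cast p.prop.ne_zero))
        exact (this.const_mul _).const_sub _
      · left
        have h1 := (norm_term_lt_one hα p j (s := s) (by linarith)).trans two_pow_lt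
        have h2 := Complex.re_le_norm (α p j * (p : ℂ) ^ (-s))
        rw [sub_re, one_re]
        linarith) hopen (fun p s hs => term_bound hα (le_of_lt hs) p)
  exact (h s hs).differentiableAt (hopen.mem_nhds hs)

end Pool.Agent.H61.GLM
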