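import Pool.Agent.H61.GLM.Local2
import Pool.Agent.H61.GLH.Abs

/-! Abstract data of an `L`-function of any degree and the convexity bound. -/

set_option autoImplicit false

open Complex Set Filter Topology Metric

namespace Pool.Agent.H61.GLM

open Pool.Agent.H61.GLH (gauss_le strip_max norm_gauss)

/-- Analytic data of an `L`-function `f` of degree `m`, without poles in `Re s > 0`. Here `X` is the
analytic conductor and `Q` the conductor in the functional equation, as functions of the height. -/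
structure Good (m : ℕ) (K : ℝ) (X Q : ℝ → ℝ) (f : ℂ → ℂ) : Prop where
  X1 : ∀ t, 1 ≤ X t
  Q1 : ∀ t, 1 ≤ Q t
  QX : ∀ t, Q t ≤ K * X t
  Xs : ∀ t u, X u ≤ X t * (1 + |u - t|) ^ m
  Qs : ∀ t u, Q u ≤ Q t * (1 + |u - t|) ^ m
  diff : ∀ s : ℂ, 0 < s.re → DifferentiableAt ℂ f s
  bd : ∀ s : ℂ, 1 / 4 ≤ s.re → ‖f s‖ ≤ K * X s.im
  fe : ∀ x u : ℝ, 0 ≤ x → x ≤ 1 / 4 →
    ‖f (1 / 2 - x + u * I)‖ ≤ K * Q u ^ x * ‖f (1 / 2 + x + u * I)‖
  far : ∀ s : ℂ, 2 ≤ s.re → ‖f s‖ ≤ K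
  near : ∃ ℓ : ℂ → ℂ, ∀ s : ℂ, 2 < s.re →
    DifferentiableAt ℂ ℓ s ∧ Complex.exp (ℓ s) = f s ∧ ‖ℓ s‖ ≤ K
  nz : ∀ s : ℂ, 1 < s.re → f s ≠ 0

variable {m : ℕ} {K a B : ℝ} {X Q : ℝ → ℝ} {f : ℂ → ℂ}

lemma pow_rpow_le {v : ℝ} (hv : 0 ≤ v) (m : ℕ) (a : ℝ) :
    ((1 + v) ^ m) ^ a = (1 + v) ^ (m * a) := by
  rw [← Real.rpow_natCast, ← Real.rpow_mul (by positivity)]

lemma weight_bound (hX1 : ∀ t, 1 ≤ X t) (hXs : ∀ t u, X u ≤ X t * (1 + |u - t|) ^ m) (ha : 0 ≤ a)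
    (u u0 : ℝ) :
    X u ^ a * Real.exp (-((u - u0) ^ 2)) ≤ X u0 ^ a * Real.exp ((m * a) ^ 2 / 4) := by
  have h1 := hXs u0 u
  have hx0 := hX1 u0
  have hx := hX1 u
  have h2 : X u ^ a ≤ X u0 ^ a * (1 + |u - u0|) ^ (m * a) := by
    rw [← pow_rpow_le (abs_nonneg _), ← Real.mul_rpow (by positivity) (by positivity)]
    exact Real.rpow_le_rpow (by positivity) h1 ha
  have h3 := gauss_le (a := m * a) (by positivity) (abs_nonneg (u - u0))
  rw [sq_abs] at h3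
  have h4 : 0 ≤ X u0 ^ a := by positivity
  calc X u ^ a * Real.exp (-((u - u0) ^ 2))
      ≤ (X u0 ^ a * (1 + |u - u0|) ^ (m * a)) * Real.exp (-((u - u0) ^ 2)) := by gcongr
    _ = X u0 ^ a * ((1 + |u - u0|) ^ (m * a) * Real.exp (-((u - u0) ^ 2))) := by ring
    _ ≤ _ := by gcongr

/-- Convexity to the right of the critical line, without loss in the exponent. -/
theorem conv_bound (hG : Good m K X Q f) (hK : 1 ≤ K) (ha : 0 ≤ a) (hB : 1 ≤ B)
    (hH : ∀ u : ℝ, ‖f (1 / 2 + u * I)‖ ≤ B * X u ^ a) {s : ℂ} (h1 : 1 / 2 ≤ s.re)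
    (h2 : s.re ≤ 2) : ‖f s‖ ≤ K * B * Real.exp (3 + (m * a) ^ 2 / 4) * X s.im ^ a := by
  have hline : ∀ z : ℂ, z.re = 1 / 2 → ‖f z‖ ≤ B * X z.im ^ a := by
    intro z hz
    have e : z = 1 / 2 + z.im * I := by
      apply Complex.ext
      · simp [hz]
      · simp
    have := hH z.im
    rwa [← e] at this
  set W := X s.im ^ a with hW
  have hW1 : 1 ≤ W := Real.one_le_rpow (hG.X1 _) ha
  have hre : ∀ z : ℂ, 1 / 2 ≤ z.re → z.re ≤ 2 → Real.exp ((z.re - s.re) ^ 2) ≤ Real.exp 3 := by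
    intro z hz1 hz2
    apply Real.exp_le_exp.mpr
    nlinarith
  have hE : Real.exp 3 * Real.exp ((m * a) ^ 2 / 4) = Real.exp (3 + (m * a) ^ 2 / 4) := by
    rw [← Real.exp_add]
  have hE1 : Real.exp 3 ≤ Real.exp (3 + (m * a) ^ 2 / 4) :=
    Real.exp_le_exp.mpr (by nlinarith [sq_nonneg ((m:ℝ) * a)])
  set F : ℂ → ℂ := fun z => Complex.exp ((z - s) ^ 2) * f z with hF
  have hFd : DiffContOnCl ℂ F (re ⁻¹' Ioo (1 / 2) 2) := by
    apply DifferentiableOn.diffContOnCl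
    intro z hz
    have hz' : z ∈ re ⁻¹' (Icc (1 / 2 : ℝ) 2) :=
      closure_minimal (s := re ⁻¹' Ioo (1 / 2 : ℝ) 2) (t := re ⁻¹' Icc (1 / 2 : ℝ) 2)
        (preimage_mono Ioo_subset_Icc_self) (isClosed_Icc.preimage Complex.continuous_re) hz
    have hz1 : 1 / 2 ≤ z.re := hz'.1
    have e1 : DifferentiableAt ℂ (fun z : ℂ => Complex.exp ((z - s) ^ 2)) z := by fun_prop
    exact (e1.mul (hG.diff z (by linarith))).differentiableWithinAt
  have hFs : F s = f s := by rw [hF]; simp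
  rw [← hFs]
  have hnF : ∀ z : ℂ, ‖F z‖ = Real.exp ((z.re - s.re) ^ 2) *
      Real.exp (-((z.im - s.im) ^ 2)) * ‖f z‖ := by
    intro z
    rw [hF]
    simp only
    rw [norm_mul, norm_gauss]
  refine strip_max (a := 1 / 2) (b := 2)
    (B := Real.exp 3 * (K * (X s.im ^ (1:ℝ) * Real.exp ((m * 1) ^ 2 / 4)))) (by norm_num)
    hFd ?_ ?_ ?_ h1 h2
  · intro z hz1 hz2
    rw [hnF]
    have e1 := weight_bound hG.X1 hG.Xs zero_le_one z.im s.im
    have e2 := hre z hz1.le hz2.le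
    have e3 := hG.bd z (by linarith)
    rw [Real.rpow_one] at e1
    calc Real.exp ((z.re - s.re) ^ 2) * Real.exp (-((z.im - s.im) ^ 2)) * ‖f z‖
        ≤ Real.exp 3 * Real.exp (-((z.im - s.im) ^ 2)) * (K * X z.im) := by
          gcongr
      _ = Real.exp 3 * (K * (X z.im * Real.exp (-((z.im - s.im) ^ 2)))) := by ring
      _ ≤ _ := by gcongr
  · intro z hz
    rw [hnF]
    have e1 := weight_bound hG.X1 hG.Xs ha z.im s.im
    have e2 := hre z (by linarith) (by linarith)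
    have e3 := hline z hz
    calc Real.exp ((z.re - s.re) ^ 2) * Real.exp (-((z.im - s.im) ^ 2)) * ‖f z‖
        ≤ Real.exp 3 * Real.exp (-((z.im - s.im) ^ 2)) * (B * X z.im ^ a) := by
          gcongr
      _ = Real.exp 3 * (B * (X z.im ^ a * Real.exp (-((z.im - s.im) ^ 2)))) := by ring
      _ ≤ Real.exp 3 * (B * (W * Real.exp ((m * a) ^ 2 / 4))) := by gcongr
      _ = 1 * B * Real.exp (3 + (m * a) ^ 2 / 4) * W := by rw [← hE]; ring
      _ ≤ _ := by gcongr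
  · intro z hz
    rw [hnF]
    have e2 := hre z (by linarith) (by linarith)
    have e3 := hG.far z hz.ge
    have e4 : Real.exp (-((z.im - s.im) ^ 2)) ≤ 1 := by
      rw [Real.exp_le_one_iff]; nlinarith [sq_nonneg (z.im - s.im)]
    calc Real.exp ((z.re - s.re) ^ 2) * Real.exp (-((z.im - s.im) ^ 2)) * ‖f z‖
        ≤ Real.exp 3 * 1 * K := by gcongr
      _ = K * 1 * Real.exp 3 * 1 := by ring
      _ ≤ _ := by gcongr

end Pool.Agent.H61.GLM
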