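import Pool.Agent.H61.GLM.Step
import Pool.Agent.H61.GLH.Disc

/-! From few zeros in a window to a bound in a disc, in any degree. -/

set_option autoImplicit false

open Complex Set Filter Topology Metric

namespace Pool.Agent.H61.GLM

open Pool.Agent.H61.GLH (local_lines crect aux_e3)

variable {m : ℕ}

/-- Few zeros in a window imply a good bound in a disc. -/
theorem disc_of_zeros {K : ℝ} (hK : 1 ≤ K) {h ε : ℝ} (hh : 0 < h) (hh1 : h ≤ 1)
    (hε : 0 < ε) (hhε : h ≤ ε) :
    ∃ δ > 0, ∃ κ > 0, ∃ K₀ : ℝ, ∀ (X Q : ℝ → ℝ) (f : ℂ → ℂ), Good m K X Q f → ∀ t c : ℝ,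
      K₀ ≤ X t → |c - t| ≤ 1 →
      (∀ Z : Finset ℂ, (∀ z ∈ Z, 1 / 2 + δ ≤ z.re ∧ |z.im - c| ≤ h / 2) →
        ((∑ z ∈ Z, analyticOrderNatAt f z : ℕ) : ℝ) ≤ κ * Real.log (X t)) →
      ∀ s : ℂ, ‖s - (1 / 2 + c * I)‖ ≤ h / 32 → ‖f s‖ ≤ X t ^ ε := by
  set D : ℝ := 3 ^ m with hDdef
  have hD : 1 ≤ D := one_le_pow₀ (by norm_num)
  set A : ℝ := 1 with hA1def
  have hA : 0 ≤ A := zero_le_one
  set ρ := h / 16 with hρ
  have hρ0 : 0 < ρ := by positivity
  set δ := min (1 / 16) (min (ε / 24) (ε * ρ ^ 2 / (288 * (A + 1)))) with hδ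
  have hδ0 : 0 < δ := by
    apply lt_min (by norm_num) (lt_min (by positivity) (by positivity))
  have hδ1 : δ ≤ 1 / 16 := min_le_left _ _
  have hδ2 : δ ≤ ε / 24 := (min_le_right _ _).trans (min_le_left _ _)
  have hδ3 : δ ≤ ε * ρ ^ 2 / (288 * (A + 1)) := (min_le_right _ _).trans (min_le_right _ _)
  obtain ⟨κ, hκ, Λ₀, hLB⟩ := local_backlund (δ := δ) (h := h / 2) (A := A + 1) (ε := ε / 8) hδ0
    (by linarith) (by positivity) (by linarith) (by linarith) (by positivity) (K₀ := K)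
    (by linarith)
  have hKD : 1 ≤ K * D := one_le_mul_of_one_le_of_one_le hK hD
  refine ⟨δ, hδ0, κ, hκ, max 10 (max (Real.exp Λ₀) (max (K * D) ((K * (K * D)) ^ (8 / ε)))), ?_⟩
  intro X Q f hG t c hK₀ hct hzero s hs
  set C := X t with hC
  have hC10 : 10 ≤ C := (le_max_left _ _).trans hK₀
  have hC1 : 1 ≤ C := by linarith
  have hC0 : 0 < C := by linarith
  have hCΛ : Real.exp Λ₀ ≤ C := ((le_max_left _ _).trans (le_max_right _ _)).trans hK₀
  have hCK : K * D ≤ C :=
    ((le_max_left _ _).trans ((le_max_right _ _).trans (le_max_right _ _))).trans hK₀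
  have hCK2 : (K * (K * D)) ^ (8 / ε) ≤ C :=
    ((le_max_right _ _).trans ((le_max_right _ _).trans (le_max_right _ _))).trans hK₀
  have h2K : K * (K * D) ≤ C ^ (ε / 8) := by
    have h1 : ((K * (K * D)) ^ (8 / ε)) ^ (ε / 8) ≤ C ^ (ε / 8) :=
      Real.rpow_le_rpow (by positivity) hCK2 (by positivity)
    rw [← Real.rpow_mul (by positivity)] at h1
    have h2 : 8 / ε * (ε / 8) = 1 := by field_simp
    rwa [h2, Real.rpow_one] at h1
  set Λ := Real.log C with hΛ
  have hΛ₀ : Λ₀ ≤ Λ := by rw [hΛ, Real.le_log_iff_exp_le hC0]; exact hCΛ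
  have hCexp : ∀ y : ℝ, Real.exp (y * Λ) = C ^ y := by
    intro y; rw [Real.rpow_def_of_pos hC0, mul_comm]
  have hcond : ∀ y : ℝ, |y - c| ≤ 1 → X y ≤ D * C := by
    intro y hy
    have h5 := hG.Xs t y
    have h10 : |y - t| ≤ 2 := by
      rw [abs_le] at hy hct ⊢; constructor <;> linarith
    calc X y ≤ C * (1 + |y - t|) ^ m := h5
      _ ≤ C * (1 + 2) ^ m := by gcongr
      _ = D * C := by rw [hDdef]; norm_num; ring
  have hpoly : ∀ y : ℝ, |y - c| ≤ 1 → K * X y ≤ C ^ (A + 1) := by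
    intro y hy
    have h5 := hcond y hy
    calc K * X y ≤ K * (D * C) := by gcongr
      _ = (K * D) * C := by ring
      _ ≤ C * C := by gcongr
      _ = C ^ (A + 1) := by rw [hA1def, Real.rpow_add hC0, Real.rpow_one]
  have hboxc : ∀ z ∈ box δ (h / 2) c, |z.im - c| ≤ 1 := by
    intro z hz
    have := hz.2.2
    linarith
  obtain ⟨ℓ, hℓ⟩ := hG.near
  have hR := hLB Λ hΛ₀ f ℓ c
    (by
      intro z hz
      exact (hG.diff z (by have := hz.1; linarith)).differentiableWithinAt)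
    (by
      intro z hz
      rw [hCexp]
      exact (hG.bd z (by have := hz.1; linarith)).trans (hpoly _ (hboxc z hz)))
    (fun z _ hz1 => hG.nz z hz1)
    hℓ
    (by
      intro Z hZ
      exact hzero Z fun z hz => ⟨(hZ z hz).1.le, (hZ z hz).2.2.le⟩)
  have hRight : ∀ s : ℂ, 1 / 2 + 3 * δ ≤ s.re → s.re ≤ 5 / 2 → |s.im - c| ≤ h / 8 →
      ‖f s‖ ≤ C ^ (ε / 8) := by
    intro s h1 h2 h3
    have := hR s h1 h2 (by linarith)
    rwa [hCexp] at this
  have hLeft : ∀ s : ℂ, 1 / 4 ≤ s.re → s.re ≤ 1 / 2 - 3 * δ → |s.im - c| ≤ h / 8 →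
      ‖f s‖ ≤ C ^ ((1 / 2 - s.re) + ε / 4) := by
    intro s h1 h2 h3
    set x := 1 / 2 - s.re with hxdef
    have hx0 : 0 ≤ x := by linarith
    have hx1 : x ≤ 1 / 4 := by linarith
    have es : s = 1 / 2 - x + s.im * I := by
      apply Complex.ext
      · simp [hxdef]
      · simp
    have h5 := hG.fe x s.im hx0 hx1
    rw [← es] at h5
    have h6 := hRight (1 / 2 + x + s.im * I) (by simp; linarith) (by simp; linarith) (by simpa using h3)
    have hQ1 := hG.Q1 s.im
    have h7 : Q s.im ^ x ≤ (K * D) * C ^ x := by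
      calc Q s.im ^ x ≤ ((K * D) * C) ^ x := by
            apply Real.rpow_le_rpow (by linarith) _ hx0
            have := hcond s.im (by linarith)
            calc Q s.im ≤ K * X s.im := hG.QX _
              _ ≤ K * (D * C) := by gcongr
              _ = _ := by ring
        _ = (K * D) ^ x * C ^ x := Real.mul_rpow (by linarith) hC0.le
        _ ≤ (K * D) ^ (1:ℝ) * C ^ x := by
          gcongr
          linarith
        _ = (K * D) * C ^ x := by rw [Real.rpow_one]
    calc ‖f s‖ ≤ K * Q s.im ^ x * ‖f (1 / 2 + x + s.im * I)‖ := h5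
      _ ≤ K * ((K * D) * C ^ x) * C ^ (ε / 8) := by gcongr
      _ = (K * (K * D)) * C ^ x * C ^ (ε / 8) := by ring
      _ ≤ C ^ (ε / 8) * C ^ x * C ^ (ε / 8) := by gcongr
      _ = C ^ (x + ε / 4) := by
        rw [← Real.rpow_add hC0, ← Real.rpow_add hC0]
        congr 1; ring
  have hsre : |s.re - 1 / 2| ≤ h / 32 := by
    have := Complex.abs_re_le_norm (s - (1 / 2 + c * I))
    simp at this
    norm_num at this ⊢
    linarith
  have hsim : |s.im - c| ≤ h / 32 := by
    have := Complex.abs_im_le_norm (s - (1 / 2 + c * I))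
    simp at this
    linarith
  have hsre' := hsre
  rw [abs_le] at hsre'
  by_cases hA1 : 1 / 2 + 3 * δ ≤ s.re
  · refine (hRight s hA1 (by linarith) (by linarith)).trans ?_
    exact Real.rpow_le_rpow_of_exponent_le hC1 (by linarith)
  push Not at hA1
  by_cases hB1 : s.re ≤ 1 / 2 - 3 * δ
  · refine (hLeft s (by linarith) hB1 (by linarith)).trans ?_
    exact Real.rpow_le_rpow_of_exponent_le hC1 (by linarith)
  push Not at hB1
  have hx3 : 0 < 3 * δ := by positivity
  have hMexp : 0 ≤ 3 * δ + ε / 4 := by positivity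
  have hM1 : 1 ≤ C ^ (3 * δ + ε / 4) := Real.one_le_rpow hC1 hMexp
  have hlogC : 0 ≤ Λ := Real.log_nonneg hC1
  have hll := local_lines (f := f) (x := 3 * δ) (ρ := ρ) (lam := (A + 1) * Λ / ρ ^ 2)
    (M := C ^ (3 * δ + ε / 4)) (s0 := s) hx3 hρ0 (by positivity)
    (by rw [abs_le]; constructor <;> linarith)
    (by
      apply DifferentiableOn.diffContOnCl
      intro z hz
      have hclos : closure (crect (3 * δ) s.im ρ) =
          Icc (1 / 2 - 3 * δ) (1 / 2 + 3 * δ) ×ℂ Icc (s.im - ρ) (s.im + ρ) := by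
        rw [crect, closure_reProdIm, closure_Ioo (by linarith), closure_Ioo (by linarith)]
      rw [hclos, mem_reProdIm] at hz
      exact (hG.diff z (by have := hz.1.1; linarith)).differentiableWithinAt)
    (by
      intro z hz1 hz2
      have hzc : |z.im - c| ≤ h / 8 := by
        have : |z.im - c| ≤ |z.im - s.im| + |s.im - c| := abs_sub_le _ _ _
        linarith
      rcases abs_choice (z.re - 1 / 2) with h9 | h9
      · rw [h9] at hz1
        refine (hRight z (by linarith) (by linarith) hzc).trans ?_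
        exact Real.rpow_le_rpow_of_exponent_le hC1 (by linarith)
      · rw [h9] at hz1
        refine (hLeft z (by linarith) (by linarith) hzc).trans ?_
        exact Real.rpow_le_rpow_of_exponent_le hC1 (by linarith))
    (by
      intro z hz1 hz2
      have hzc : |z.im - c| ≤ 1 := by
        have : |z.im - c| ≤ |z.im - s.im| + |s.im - c| := abs_sub_le _ _ _
        linarith
      rw [abs_le] at hz1
      have e1 : (A + 1) * Λ / ρ ^ 2 * ρ ^ 2 = (A + 1) * Λ := by field_simp
      rw [e1, hCexp]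
      calc ‖f z‖ ≤ K * X z.im := hG.bd z (by linarith)
        _ ≤ 1 * C ^ (A + 1) := by rw [one_mul]; exact hpoly _ hzc
        _ ≤ _ := by gcongr)
    (by positivity)
  refine hll.trans ?_
  have e2 : (A + 1) * Λ / ρ ^ 2 * (2 * (3 * δ)) ^ 2 = (36 * (A + 1) * δ ^ 2 / ρ ^ 2) * Λ := by ring
  rw [e2, hCexp, ← Real.rpow_add hC0]
  apply Real.rpow_le_rpow_of_exponent_le hC1
  have e3 : 36 * (A + 1) * δ ^ 2 / ρ ^ 2 ≤ ε / 8 := by
    rw [div_le_iff₀ (by positivity)]
    rw [le_div_iff₀ (by positivity)] at hδ3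
    exact aux_e3 hA hδ0 (by linarith) hδ3
  linarith

end Pool.Agent.H61.GLM
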