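import Pool.Agent.H61.GLM.Disc
import Pool.Agent.H61.GLH.Equiv

/-! Zero counts in windows and the Lindelof bound, in any degree. -/

set_option autoImplicit false

open Complex Set Filter Topology Metric

namespace Pool.Agent.H61.GLM

open Pool.Agent.H61.GLH (FewZeros jensen_count)

section

variable {m : ℕ} {ι : Type*} {X Q : ι → ℝ → ℝ} {f : ι → ℂ → ℂ}

theorem few_zeros_of_HB {K : ℝ} (hG : ∀ i, Good m K (X i) (Q i) (f i)) (hK : 1 ≤ K)
    (hL : ∀ ε > 0, HB X f ε) {δ κ : ℝ} (hδ : 0 < δ) (hκ : 0 < κ) :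
    ∃ K₀ : ℝ, ∀ i, ∀ t : ℝ, K₀ ≤ X i t →
      FewZeros (f i) δ t (t + 1) (κ * Real.log (X i t)) := by
  set δ' := min δ 1 with hδ'
  have hδ'0 : 0 < δ' := lt_min hδ one_pos
  have hδ'1 : δ' ≤ 1 := min_le_right _ _
  have hδ'δ : δ' ≤ δ := min_le_left _ _
  set Y := 1 / δ' + 2 with hY
  have hY1 : 1 ≤ 1 / δ' := by rw [le_div_iff₀ hδ'0]; linarith
  have hY3 : 3 ≤ Y := by linarith
  set R := Y - 1 / 2 with hR
  set r := Y - 1 / 2 - δ' / 2 with hr
  have hr0 : 0 < r := by linarith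
  have hR0 : 0 < R := by linarith
  have hrR : 1 < R / r := by rw [one_lt_div hr0]; linarith
  have hlog : 0 < Real.log (R / r) := Real.log_pos hrR
  set ε := κ * Real.log (R / r) / 2 with hε
  have hε0 : 0 < ε := by positivity
  obtain ⟨B, hB, hHB⟩ := hL ε hε0
  set B4 := K + K * B * Real.exp (3 + (m * ε) ^ 2 / 4) * ((2 + Y) ^ m) ^ ε with hB4
  have hB40 : 0 < B4 := by positivity
  have hB4K : K ≤ B4 := by
    have : 0 ≤ K * B * Real.exp (3 + (m * ε) ^ 2 / 4) * ((2 + Y) ^ m) ^ ε := by positivity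
    linarith
  refine ⟨max (Y + 4) ((Real.exp K * B4) ^ (1 / ε)), ?_⟩
  intro i t hC
  have hGi := hG i
  set C := X i t with hCdef
  have hCX : Y + 4 ≤ C := (le_max_left _ _).trans hC
  have hCB : (Real.exp K * B4) ^ (1 / ε) ≤ C := (le_max_right _ _).trans hC
  have hC1 : 1 ≤ C := by linarith
  have hC0 : 0 < C := by linarith
  have h3B : Real.exp K * B4 ≤ C ^ ε := by
    have h1 : ((Real.exp K * B4) ^ (1 / ε)) ^ ε ≤ C ^ ε :=
      Real.rpow_le_rpow (by positivity) hCB hε0.le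
    rwa [← Real.rpow_mul (by positivity), one_div_mul_cancel hε0.ne', Real.rpow_one] at h1
  set p : ℂ := (Y : ℂ) + ((t + 1 / 2 : ℝ) : ℂ) * I with hp
  have hpre : p.re = Y := by simp [hp]
  have hpim : p.im = t + 1 / 2 := by simp [hp]
  set U := ball p (R + 1 / 4) with hU
  have hUre : ∀ z ∈ U, 1 / 4 < z.re ∧ |z.im - t| < Y + 1 := by
    intro z hz
    rw [hU, mem_ball, dist_eq_norm] at hz
    have h1 := Complex.abs_re_le_norm (z - p)
    have h2 := Complex.abs_im_le_norm (z - p)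
    rw [Complex.sub_re, hpre] at h1
    rw [Complex.sub_im, hpim] at h2
    have h3 := h1.trans_lt hz
    have h4 := h2.trans_lt hz
    rw [abs_lt] at h3 h4
    refine ⟨by linarith, ?_⟩
    rw [abs_lt]
    constructor <;> linarith
  have hfd : DifferentiableOn ℂ (f i) U := by
    intro z hz
    exact (hGi.diff z (by have := (hUre z hz).1; linarith)).differentiableWithinAt
  have hball : closedBall p R ⊆ U := closedBall_subset_ball (by linarith)
  have hfp : Real.exp (-K) ≤ ‖f i p‖ := by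
    obtain ⟨ℓ, hℓ⟩ := hGi.near
    obtain ⟨_, e2, e3⟩ := hℓ p (by rw [hpre]; linarith)
    rw [← e2, Complex.norm_exp]
    apply Real.exp_le_exp.mpr
    have := (abs_le.mp ((Complex.abs_re_le_norm (ℓ p)).trans e3)).1
    linarith
  have hfp0 : f i p ≠ 0 := norm_pos_iff.mp ((Real.exp_pos _).trans_le hfp)
  have hM : ∀ z ∈ sphere p R, ‖f i z‖ ≤ B4 * C ^ ε := by
    intro z hz
    have hzU := hball (sphere_subset_closedBall hz)
    have hCe : 1 ≤ C ^ ε := Real.one_le_rpow hC1 hε0.le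
    by_cases h32 : 2 ≤ z.re
    · calc ‖f i z‖ ≤ K := hGi.far z h32
        _ ≤ B4 * 1 := by linarith
        _ ≤ B4 * C ^ ε := by gcongr
    · push Not at h32
      have hz12 : 1 / 2 ≤ z.re := by
        have h1 := Complex.abs_re_le_norm (z - p)
        rw [mem_sphere, dist_eq_norm] at hz
        rw [hz, Complex.sub_re, hpre, abs_le] at h1
        linarith
      have h1 := conv_bound hGi hK hε0.le hB (hHB i) hz12 h32.le
      have h2 : X i z.im ≤ (2 + Y) ^ m * C := by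
        have h5 := hGi.Xs t z.im
        have h6 := (hUre z hzU).2
        calc X i z.im ≤ C * (1 + |z.im - t|) ^ m := h5
          _ ≤ C * (1 + (Y + 1)) ^ m := by gcongr
          _ = C * (2 + Y) ^ m := by ring
          _ = (2 + Y) ^ m * C := mul_comm _ _
      have h3 : X i z.im ^ ε ≤ ((2 + Y) ^ m) ^ ε * C ^ ε := by
        rw [← Real.mul_rpow (by positivity) hC0.le]
        exact Real.rpow_le_rpow (by linarith [hGi.X1 z.im]) h2 hε0.le
      calc ‖f i z‖ ≤ K * B * Real.exp (3 + (m * ε) ^ 2 / 4) * X i z.im ^ ε := h1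
        _ ≤ K * B * Real.exp (3 + (m * ε) ^ 2 / 4) * (((2 + Y) ^ m) ^ ε * C ^ ε) := by gcongr
        _ = (K * B * Real.exp (3 + (m * ε) ^ 2 / 4) * ((2 + Y) ^ m) ^ ε) * C ^ ε := by ring
        _ ≤ B4 * C ^ ε := by
          gcongr
          rw [hB4]; linarith
  intro Z hZ
  classical
  set Z' := Z.filter (fun z => analyticOrderNatAt (f i) z ≠ 0) with hZ'
  have hsum : ∑ z ∈ Z, analyticOrderNatAt (f i) z = ∑ z ∈ Z', analyticOrderNatAt (f i) z :=
    (Finset.sum_filter_ne_zero Z).symm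
  rw [hsum]
  have hZ'p : ∀ z ∈ Z', z ∈ U ∧ ‖z - p‖ ≤ r := by
    intro z hz
    rw [hZ', Finset.mem_filter] at hz
    obtain ⟨hz1, hz2⟩ := hz
    obtain ⟨a1, a2, a3⟩ := hZ z hz1
    have hzero : f i z = 0 := apply_eq_zero_of_analyticOrderNatAt_ne_zero hz2
    have hz1' : z.re ≤ 1 := by
      by_contra hlt
      exact hGi.nz z (not_le.mp hlt) hzero
    have hnorm : ‖z - p‖ ≤ r := by
      rw [Complex.norm_def, Real.sqrt_le_left hr0.le, Complex.normSq_apply, Complex.sub_re,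
        Complex.sub_im, hpre, hpim]
      have e1 : (z.re - Y) * (z.re - Y) ≤ (Y - 1 / 2 - δ') ^ 2 := by
        have h1 : 0 ≤ Y - z.re := by linarith
        have h2 : Y - z.re ≤ Y - 1 / 2 - δ' := by linarith
        have h3 : (z.re - Y) * (z.re - Y) = (Y - z.re) ^ 2 := by ring
        rw [h3]
        exact pow_le_pow_left₀ h1 h2 2
      have e2 : (z.im - (t + 1 / 2)) * (z.im - (t + 1 / 2)) ≤ 1 / 4 := by
        have h1 : |z.im - (t + 1 / 2)| ≤ 1 / 2 := by rw [abs_le]; constructor <;> linarith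
        have h2 := pow_le_pow_left₀ (abs_nonneg _) h1 2
        rw [sq_abs] at h2
        linarith
      have e3 : δ' * Y = 1 + 2 * δ' := by
        rw [hY]; field_simp
      have e4 : (Y - 1 / 2 - δ') ^ 2 + 1 / 4 ≤ r ^ 2 := by
        have e6 : (Y - 1 / 2 - δ' / 2) ^ 2 - (Y - 1 / 2 - δ') ^ 2 =
            δ' * Y - δ' / 2 - 3 / 4 * δ' ^ 2 := by ring
        have e7 : δ' ^ 2 ≤ δ' := by
          rw [pow_two]; exact mul_le_of_le_one_left hδ'0.le hδ'1
        rw [hr]
        linarith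
      linarith
    refine ⟨?_, hnorm⟩
    rw [hU, mem_ball, dist_eq_norm]
    linarith
  have hj := jensen_count (M := B4 * C ^ ε) isOpen_ball (convex_ball p (R + 1 / 4)).isPreconnected
    hfd hr0 hR0 hball hfp0 hM Z' hZ'p
  set n := ∑ z ∈ Z', analyticOrderNatAt (f i) z with hn
  have hj2 : (R / r) ^ n ≤ C ^ ε * C ^ ε := by
    rw [div_pow, div_le_iff₀ (by positivity)]
    have h1 : Real.exp (-K) * R ^ n ≤ B4 * C ^ ε * r ^ n := by
      refine le_trans ?_ hj
      gcongr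
    have h2 : Real.exp K * Real.exp (-K) = 1 := by rw [← Real.exp_add]; simp
    calc R ^ n = (Real.exp K * Real.exp (-K)) * R ^ n := by rw [h2, one_mul]
      _ = Real.exp K * (Real.exp (-K) * R ^ n) := by ring
      _ ≤ Real.exp K * (B4 * C ^ ε * r ^ n) := by gcongr
      _ = (Real.exp K * B4) * C ^ ε * r ^ n := by ring
      _ ≤ C ^ ε * C ^ ε * r ^ n := by gcongr
  have hj3 : (n : ℝ) * Real.log (R / r) ≤ 2 * ε * Real.log C := by
    have h1 := Real.log_le_log (by positivity) hj2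
    rw [Real.log_pow, Real.log_mul (by positivity) (by positivity), Real.log_rpow hC0] at h1
    linarith
  have hj4 : 2 * ε = κ * Real.log (R / r) := by rw [hε]; ring
  rw [hj4] at hj3
  have h5 : (n : ℝ) * Real.log (R / r) ≤ (κ * Real.log C) * Real.log (R / r) := by linarith
  exact le_of_mul_le_mul_right h5 hlog

/-- The window condition. -/
def ZeroWindows (X : ι → ℝ → ℝ) (f : ι → ℂ → ℂ) : Prop :=
  ∀ ε > 0, ∃ η : ℝ, 0 < η ∧ η ≤ ε ∧ ∀ δ > 0, ∀ κ > 0, ∃ K₀ : ℝ, ∀ i, ∀ t : ℝ,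
    K₀ ≤ X i t → ∃ a : ℝ, t ≤ a ∧ a + Real.exp (-(ε / η)) ≤ t + η ∧
      FewZeros (f i) δ a (a + Real.exp (-(ε / η))) (κ * Real.log (X i t))

theorem HB_of_zeroWindows {K : ℝ} (hG : ∀ i, Good m K (X i) (Q i) (f i)) (hK : 1 ≤ K)
    (hZ : ZeroWindows X f) (hne : ∀ i, ∀ K₀ : ℝ, ∃ t : ℝ, K₀ ≤ X i t) :
    ∀ ε > 0, HB X f ε := by
  intro E hE
  rcases isEmpty_or_nonempty ι with hι | ⟨⟨i0⟩⟩
  · exact ⟨1, le_rfl, fun i => (hι.false i).elim⟩
  set ε := min (E / 5) (1 / 64) with hε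
  have hε0 : 0 < ε := lt_min (by positivity) (by norm_num)
  have hε1 : ε ≤ E / 5 := min_le_left _ _
  have hε2 : ε ≤ 1 / 64 := min_le_right _ _
  obtain ⟨η, hη0, hηε, hwin⟩ := hZ ε hε0
  set h := Real.exp (-(ε / η)) with hh
  have hh0 : 0 < h := Real.exp_pos _
  have hhη : h ≤ η := by
    obtain ⟨K₀, hK₀⟩ := hwin 1 one_pos 1 one_pos
    obtain ⟨t₁, ht₁⟩ := hne i0 K₀
    obtain ⟨a, ha1, ha2, -⟩ := hK₀ i0 t₁ ht₁
    linarith
  obtain ⟨δ, hδ, κ, hκ, K₁, hdisc⟩ := disc_of_zeros (m := m) (K := K) hK hh0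
    (by linarith) hε0 (by linarith)
  obtain ⟨K₂, hK₂⟩ := hwin δ hδ κ hκ
  apply exponent_le hG hK (η := η) (r := h / 32) (ε₁ := ε) (K₀ := max K₁ K₂) (by positivity)
    (by linarith) (by linarith) hε0.le
  · intro i t ht
    obtain ⟨a, ha1, ha2, ha3⟩ := hK₂ i t ((le_max_right _ _).trans ht)
    refine ⟨a + h / 2, by linarith, by linarith, ?_⟩
    apply hdisc (X i) (Q i) (f i) (hG i) t (a + h / 2) ((le_max_left _ _).trans ht)
    · rw [abs_le]; constructor <;> linarith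
    · intro Z hZ'
      apply ha3 Z
      intro z hz
      obtain ⟨b1, b2⟩ := hZ' z hz
      rw [abs_le] at b2
      exact ⟨b1, by linarith, by linarith⟩
  · have e1 : Real.log (η / (h / 32)) = Real.log (32 * η) + ε / η := by
      have : η / (h / 32) = (32 * η) / h := by field_simp
      rw [this, Real.log_div (by positivity) hh0.ne', hh, Real.log_exp]; ring
    have e2 : Real.log (32 * η) ≤ 0 := by
      apply Real.log_nonpos (by positivity)
      linarith
    rw [e1]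
    have e3 : 2 * η * (Real.log (32 * η) + ε / η) ≤ 2 * ε := by
      have : 2 * η * (Real.log (32 * η) + ε / η) = 2 * η * Real.log (32 * η) + 2 * ε := by
        field_simp
      rw [this]
      nlinarith
    linarith

end

end Pool.Agent.H61.GLM
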