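import Pool.Agent.H61.GLH.TwoConst
import Pool.Agent.H61.GLH.Factor

/-! Local form of Backlund's theorem: few zeros in a thin box give a good bound inside. -/

set_option autoImplicit false

open Complex Set Filter Topology Metric

namespace Pool.Agent.H61.GLM

open Pool.Agent.H61.GLH (two_const schwarz_bound Phi rect closure_rect factor_finset quotient_bound
  exists_log)

/-- Open box to the right of `1/2 + δ`. -/
def box (δ h c : ℝ) : Set ℂ := {z | 1 / 2 + δ < z.re ∧ z.re < 3 ∧ |z.im - c| < h}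

lemma isOpen_box (δ h c : ℝ) : IsOpen (box δ h c) := by
  have h1 : IsOpen {z : ℂ | 1 / 2 + δ < z.re} := isOpen_lt continuous_const Complex.continuous_re
  have h2 : IsOpen {z : ℂ | z.re < 3} := isOpen_lt Complex.continuous_re continuous_const
  have h3 : IsOpen {z : ℂ | |z.im - c| < h} :=
    isOpen_lt ((Complex.continuous_im.sub continuous_const).abs) continuous_const
  exact h1.inter (h2.inter h3)

lemma convex_box (δ h c : ℝ) : Convex ℝ (box δ h c) := by
  have h1 : Convex ℝ {z : ℂ | 1 / 2 + δ < z.re} := convex_halfSpace_re_gt _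
  have h2 : Convex ℝ {z : ℂ | z.re < 3} := convex_halfSpace_re_lt _
  have h3 : Convex ℝ {z : ℂ | |z.im - c| < h} := by
    have : {z : ℂ | |z.im - c| < h} = {z : ℂ | z.im < c + h} ∩ {z : ℂ | c - h < z.im} := by
      ext z; simp only [mem_ofPred_eq, mem_inter_iff, abs_lt]
      constructor
      · rintro ⟨a, b⟩; constructor <;> linarith
      · rintro ⟨a, b⟩; constructor <;> linarith
    rw [this]
    exact (convex_halfSpace_im_lt _).inter (convex_halfSpace_im_gt _)
  exact h1.inter (h2.inter h3)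

lemma norm_log_le {z : ℂ} {a b : ℝ} (ha : a ≤ ‖z‖) (ha0 : 0 < a) (hb : ‖z‖ ≤ b) {L : ℝ}
    (h1 : -L ≤ Real.log a) (h2 : Real.log b ≤ L) : ‖Complex.log z‖ ≤ L + Real.pi := by
  refine (Complex.norm_le_abs_re_add_abs_im _).trans ?_
  have h3 : |(Complex.log z).re| ≤ L := by
    rw [Complex.log_re, abs_le]
    constructor
    · exact h1.trans (Real.log_le_log ha0 ha)
    · exact (Real.log_le_log (ha0.trans_le ha) hb).trans h2
  have h4 : |(Complex.log z).im| ≤ Real.pi := by
    rw [Complex.log_im]; exact Complex.abs_arg_le_pi z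
  linarith

theorem local_backlund_aux {δ h c M K₀ : ℝ} {n : ℕ} (hK₀ : 0 < K₀) (hδ : 0 < δ) (hδ' : δ ≤ 1 / 8) (hh : 0 < h)
    (hh1 : h ≤ 1) (hM : 1 ≤ M) {f : ℂ → ℂ} (hf : DifferentiableOn ℂ f (box δ h c))
    (hfM : ∀ z ∈ box δ h c, ‖f z‖ ≤ M)
    (h1 : ∀ z ∈ box δ h c, 1 < z.re → f z ≠ 0)
    {ℓ : ℂ → ℂ} (h2 : ∀ z : ℂ, 2 < z.re →
      DifferentiableAt ℂ ℓ z ∧ Complex.exp (ℓ z) = f z ∧ ‖ℓ z‖ ≤ K₀)
    (hn : ∀ Z : Finset ℂ, (∀ z ∈ Z, z ∈ box δ h c) → ∑ z ∈ Z, analyticOrderNatAt f z ≤ n)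
    {s : ℂ} (hs1 : 1 / 2 + 2 * δ ≤ s.re) (hs2 : s.re ≤ 5 / 2) (hs3 : |s.im - c| ≤ h / 2) :
    ‖f s‖ ≤ Real.exp (4 * (Real.log M + n * Real.log (2 / min δ (h / 2)) + (K₀ + 5 * n)) *
      ((K₀ + 5 * n) / (Real.log M + n * Real.log (2 / min δ (h / 2)) + (K₀ + 5 * n))) ^
        (Phi (2 - 2 * δ) h (s - ((1 / 2 + 2 * δ : ℝ) : ℂ) - c * I)) + 2 * n) := by
  classical
  set U := box δ h c with hU
  have hUo : IsOpen U := isOpen_box _ _ _
  have hUc : Convex ℝ U := convex_box _ _ _
  have hfa : AnalyticOnNhd ℂ f U := hf.analyticOnNhd hUo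
  set p : ℂ := ((5 / 2 : ℝ) : ℂ) + c * I with hp
  have hpre : p.re = 5 / 2 := by simp [hp]
  have hpim : p.im = c := by simp [hp]
  have hpU : p ∈ U := by
    refine ⟨by rw [hpre]; linarith, by rw [hpre]; norm_num, by rw [hpim]; simpa using hh⟩
  have hfp : f p ≠ 0 := h1 p hpU (by rw [hpre]; norm_num)
  have hord : ∀ w ∈ U, analyticOrderAt f w ≠ ⊤ := by
    intro w hw
    have : analyticOrderAt f p ≠ ⊤ := by
      rw [(hfa p hpU).analyticOrderAt_eq_zero.mpr hfp]; simp
    exact hfa.analyticOrderAt_ne_top_of_isPreconnected hUc.isPreconnected hpU hw this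
  have hord1 : ∀ w ∈ U, f w = 0 → 1 ≤ analyticOrderNatAt f w := by
    intro w hw h0
    have h3 : analyticOrderAt f w ≠ 0 := (hfa w hw).analyticOrderAt_ne_zero.mpr h0
    have h4 := hord w hw
    rw [← Nat.cast_analyticOrderNatAt h4] at h3
    have : analyticOrderNatAt f w ≠ 0 := by
      intro h5; apply h3; rw [h5]; rfl
    omega
  have hfin : {w | w ∈ U ∧ f w = 0}.Finite := by
    by_contra hinf
    have hinf' : {w | w ∈ U ∧ f w = 0}.Infinite := hinf
    obtain ⟨Z, hZ, hcard⟩ := hinf'.exists_subset_card_eq (n + 1)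
    have h3 := hn Z (fun z hz => (hZ hz).1)
    have h4 : Z.card ≤ ∑ z ∈ Z, analyticOrderNatAt f z := by
      rw [Finset.card_eq_sum_ones]
      exact Finset.sum_le_sum fun z hz => hord1 z (hZ hz).1 (hZ hz).2
    omega
  set Z := hfin.toFinset with hZdef
  have hZ : ∀ w, w ∈ Z ↔ w ∈ U ∧ f w = 0 := by intro w; simp [hZdef]
  obtain ⟨g, hga, hge, hgZ⟩ := factor_finset hUo Z hfa (fun w hw => ((hZ w).mp hw).1)
    (fun w hw => hord w ((hZ w).mp hw).1)
  set m : ℂ → ℕ := fun w => analyticOrderNatAt f w with hm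
  have hmn : ∑ w ∈ Z, m w ≤ n := hn Z (fun w hw => ((hZ w).mp hw).1)
  have hg0 : ∀ z ∈ U, g z ≠ 0 := by
    intro z hz h0
    by_cases hfz : f z = 0
    · exact hgZ z ((hZ z).mpr ⟨hz, hfz⟩) h0
    · apply hfz; rw [hge z hz, h0, mul_zero]
  -- upper bound for g
  set r := min δ (h / 2) with hr
  have hr0 : 0 < r := lt_min hδ (by linarith)
  have hrδ : r ≤ δ := min_le_left _ _
  have hrh : r ≤ h / 2 := min_le_right _ _
  have hball : ∀ w : ℂ, 1 / 2 + 2 * δ ≤ w.re → w.re ≤ 5 / 2 → |w.im - c| ≤ h / 2 →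
      closedBall w (r / 2) ⊆ U := by
    intro w hw1 hw2 hw3 z hz
    rw [mem_closedBall, dist_eq_norm] at hz
    have hre : |z.re - w.re| ≤ r / 2 := by
      have := Complex.abs_re_le_norm (z - w)
      rw [Complex.sub_re] at this
      linarith
    have him : |z.im - w.im| ≤ r / 2 := by
      have := Complex.abs_im_le_norm (z - w)
      rw [Complex.sub_im] at this
      linarith
    rw [abs_le] at hre him hw3
    refine ⟨by linarith, by linarith, ?_⟩
    rw [abs_lt]
    constructor <;> linarith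
  have hgb : ∀ w : ℂ, 1 / 2 + 2 * δ ≤ w.re → w.re ≤ 5 / 2 → |w.im - c| ≤ h / 2 →
      Real.log ‖g w‖ ≤ Real.log M + n * Real.log (2 / r) := by
    intro w hw1 hw2 hw3
    have hb := hball w hw1 hw2 hw3
    have hgd : DiffContOnCl ℂ g (ball w (r / 2)) := by
      apply DifferentiableOn.diffContOnCl
      rw [closure_ball _ (by linarith)]
      exact (hga.differentiableOn).mono hb
    have h3 := quotient_bound (M := M) (by linarith : 0 < r / 2) hgd Z m
      (fun z hz => hge z (hb (sphere_subset_closedBall hz)))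
      (fun z hz => hfM z (hb (sphere_subset_closedBall hz)))
    have hwU : w ∈ U := hb (mem_closedBall_self (by linarith))
    have hgpos : 0 < ‖g w‖ := norm_pos_iff.mpr (hg0 w hwU)
    have hr1 : r / 2 ≤ 1 := by linarith
    have h4 : (r / 2) ^ n ≤ (r / 2) ^ (∑ w ∈ Z, m w) :=
      pow_le_pow_of_le_one (by positivity) hr1 hmn
    have h5 : ‖g w‖ * (r / 2) ^ n ≤ M := (mul_le_mul_of_nonneg_left h4 hgpos.le).trans h3
    have h6 : Real.log (‖g w‖ * (r / 2) ^ n) ≤ Real.log M := Real.log_le_log (by positivity) h5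
    rw [Real.log_mul hgpos.ne' (by positivity), Real.log_pow] at h6
    have h7 : Real.log (2 / r) = -Real.log (r / 2) := by
      rw [← Real.log_inv]; congr 1; field_simp
    rw [h7]
    linarith
  -- the logarithm
  obtain ⟨h0, hh0d, hh0e⟩ := exists_log hUo hUc ⟨p, hpU⟩ hga.differentiableOn hg0
  set V := U ∩ {z : ℂ | 2 < z.re} with hV
  have hVo : IsOpen V := hUo.inter (isOpen_lt continuous_const Complex.continuous_re)
  have hVc : Convex ℝ V := hUc.inter (convex_halfSpace_re_gt _)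
  have hpV : p ∈ V := ⟨hpU, by show (2:ℝ) < p.re; rw [hpre]; norm_num⟩
  set q : ℂ → ℂ := fun z => ℓ z - ∑ w ∈ Z, (m w : ℂ) * Complex.log (z - w) with hq
  have hZre : ∀ w ∈ Z, w.re ≤ 1 := by
    intro w hw
    by_contra hlt
    exact h1 w ((hZ w).mp hw).1 (not_le.mp hlt) ((hZ w).mp hw).2
  have hslit2 : ∀ z ∈ V, ∀ w ∈ Z, z - w ∈ Complex.slitPlane := by
    intro z hz w hw
    left
    have h3 := hZre w hw
    have h4 : 2 < z.re := hz.2
    rw [Complex.sub_re]; linarith
  have hqd : DifferentiableOn ℂ q V := by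
    intro z hz
    have e1 : DifferentiableAt ℂ ℓ z := (h2 z hz.2).1
    have e2 : DifferentiableAt ℂ (fun z => ∑ w ∈ Z, (m w : ℂ) * Complex.log (z - w)) z := by
      apply DifferentiableAt.fun_sum
      intro w hw
      exact ((differentiableAt_id.sub_const w).clog (hslit2 z hz w hw)).const_mul _
    exact (e1.sub e2).differentiableWithinAt
  have hqe : ∀ z ∈ V, Complex.exp (q z) = g z := by
    intro z hz
    have e1 : Complex.exp (∑ w ∈ Z, (m w : ℂ) * Complex.log (z - w)) = ∏ w ∈ Z, (z - w) ^ (m w) := by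
      rw [Complex.exp_sum]
      apply Finset.prod_congr rfl
      intro w hw
      rw [Complex.exp_nat_mul, Complex.exp_log (Complex.slitPlane_ne_zero (hslit2 z hz w hw))]
    rw [hq]
    simp only
    rw [Complex.exp_sub, (h2 z hz.2).2.1, e1, hge z hz.1]
    have e2 : (∏ w ∈ Z, (z - w) ^ (m w)) ≠ 0 := by
      apply Finset.prod_ne_zero_iff.mpr
      intro w hw
      exact pow_ne_zero _ (Complex.slitPlane_ne_zero (hslit2 z hz w hw))
    rw [mul_comm, mul_div_assoc, div_self e2, mul_one]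
  -- difference is constant on V
  have hdiffc : ∀ z ∈ V, h0 z - q z = h0 p - q p := by
    intro z hz
    have hsub : DifferentiableOn ℂ (fun z => h0 z - q z) V :=
      (hh0d.mono inter_subset_left).sub hqd
    have hder : ∀ z ∈ V, deriv (fun z => h0 z - q z) z = 0 := by
      intro z hz
      have a1 : HasDerivAt h0 (deriv h0 z) z :=
        ((hh0d z hz.1).differentiableAt (hUo.mem_nhds hz.1)).hasDerivAt
      have a2 : HasDerivAt q (deriv q z) z :=
        ((hqd z hz).differentiableAt (hVo.mem_nhds hz)).hasDerivAt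
      have a3 : HasDerivAt g (Complex.exp (h0 z) * deriv h0 z) z := by
        refine (a1.cexp).congr_of_eventuallyEq ?_
        filter_upwards [hUo.mem_nhds hz.1] with y hy
        rw [hh0e y hy]
      have a4 : HasDerivAt g (Complex.exp (q z) * deriv q z) z := by
        refine (a2.cexp).congr_of_eventuallyEq ?_
        filter_upwards [hVo.mem_nhds hz] with y hy
        rw [hqe y hy]
      have a5 := a3.unique a4
      rw [hh0e z hz.1, hqe z hz] at a5
      have a6 := mul_left_cancel₀ (hg0 z hz.1) a5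
      have a7 : HasDerivAt (fun z => h0 z - q z) (deriv h0 z - deriv q z) z := a1.sub a2
      rw [a7.deriv, a6, sub_self]
    exact hVo.is_const_of_deriv_eq_zero hVc.isPreconnected hsub hder hz hpV
  set C0 := h0 p - q p with hC0
  have hC0e : Complex.exp C0 = 1 := by
    rw [hC0, Complex.exp_sub, hh0e p hpU, hqe p hpV, div_self (hg0 p hpU)]
  set H : ℂ → ℂ := fun z => h0 z - C0 with hH
  have hHd : DifferentiableOn ℂ H U := hh0d.sub_const _
  have hHe : ∀ z ∈ U, Complex.exp (H z) = g z := by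
    intro z hz
    rw [hH]; simp only
    rw [Complex.exp_sub, hC0e, div_one, hh0e z hz]
  have hHq : ∀ z ∈ V, H z = q z := by
    intro z hz
    have := hdiffc z hz
    rw [hH]; simp only
    rw [← this]; ring
  -- shift
  set a0 : ℂ := ((1 / 2 + 2 * δ : ℝ) : ℂ) + c * I with ha0
  have ha0re : a0.re = 1 / 2 + 2 * δ := by simp [ha0]
  have ha0im : a0.im = c := by simp [ha0]
  have hW : 0 < 2 - 2 * δ := by linarith
  have hmem : ∀ z ∈ closure (rect (2 - 2 * δ) h), 1 / 2 + 2 * δ ≤ (z + a0).re ∧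
      (z + a0).re ≤ 5 / 2 ∧ |(z + a0).im - c| ≤ h / 2 := by
    intro z hz
    rw [closure_rect hW hh, mem_reProdIm] at hz
    obtain ⟨⟨b1, b2⟩, ⟨b3, b4⟩⟩ := hz
    rw [Complex.add_re, Complex.add_im, ha0re, ha0im]
    refine ⟨by linarith, by linarith, ?_⟩
    rw [abs_le]
    constructor <;> linarith
  have hmemU : ∀ z ∈ closure (rect (2 - 2 * δ) h), z + a0 ∈ U := by
    intro z hz
    obtain ⟨b1, b2, b3⟩ := hmem z hz
    exact hball _ b1 b2 b3 (mem_closedBall_self (by linarith))
  have hHc : DiffContOnCl ℂ (fun z => H (z + a0)) (rect (2 - 2 * δ) h) := by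
    apply DifferentiableOn.diffContOnCl
    intro z hz
    have := ((hHd _ (hmemU z hz)).differentiableAt (hUo.mem_nhds (hmemU z hz)))
    exact (this.comp z (differentiableAt_id.add_const a0)).differentiableWithinAt
  set b : ℝ := K₀ + 5 * n with hb
  set M' : ℝ := Real.log M + n * Real.log (2 / r) + b with hM'
  have hlogM : 0 ≤ Real.log M := Real.log_nonneg hM
  have hlogr : 0 ≤ Real.log (2 / r) := by
    apply Real.log_nonneg
    rw [le_div_iff₀ hr0]; linarith
  have hb0 : 0 < b := by rw [hb]; positivity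
  have hbM : b ≤ M' := by
    rw [hM']
    have : 0 ≤ (n : ℝ) * Real.log (2 / r) := by positivity
    linarith
  have hHre : ∀ z ∈ closure (rect (2 - 2 * δ) h), (H (z + a0)).re ≤ M' := by
    intro z hz
    obtain ⟨b1, b2, b3⟩ := hmem z hz
    have e1 : (H (z + a0)).re = Real.log ‖g (z + a0)‖ := by
      rw [← hHe _ (hmemU z hz), Complex.norm_exp, Real.log_exp]
    rw [e1, hM']
    have := hgb _ b1 b2 b3
    linarith
  have hHedge : ∀ z ∈ closure (rect (2 - 2 * δ) h), z.re = 2 - 2 * δ → ‖H (z + a0)‖ ≤ b := by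
    intro z hz hzW
    obtain ⟨b1, b2, b3⟩ := hmem z hz
    have hre : (z + a0).re = 5 / 2 := by rw [Complex.add_re, ha0re, hzW]; ring
    have hzU := hmemU z hz
    have hzV : z + a0 ∈ V := ⟨hzU, by show (2:ℝ) < (z + a0).re; rw [hre]; norm_num⟩
    rw [hHq _ hzV, hq]
    simp only
    have hpi := Real.pi_lt_d2
    have e1 : ‖ℓ (z + a0)‖ ≤ K₀ := (h2 _ hzV.2).2.2
    have e2 : ∀ w ∈ Z, ‖Complex.log (z + a0 - w)‖ ≤ 5 := by
      intro w hw
      have hwU := ((hZ w).mp hw).1
      have hw1 := hZre w hw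
      have hw2 : 1 / 2 + δ < w.re := hwU.1
      have hw3 : |w.im - c| < h := hwU.2.2
      rw [abs_lt] at hw3
      rw [abs_le] at b3
      have h4 : (1:ℝ) ≤ ‖z + a0 - w‖ := by
        have := Complex.abs_re_le_norm (z + a0 - w)
        rw [Complex.sub_re, hre] at this
        have h5 := le_abs_self (5 / 2 - w.re)
        linarith
      have h5 : ‖z + a0 - w‖ ≤ 4 := by
        refine (Complex.norm_le_abs_re_add_abs_im _).trans ?_
        rw [Complex.sub_re, Complex.sub_im, hre]
        have h6 : |5 / 2 - w.re| ≤ 2 := by rw [abs_le]; constructor <;> linarith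
        have h7 : |(z + a0).im - w.im| ≤ 3 / 2 := by rw [abs_le]; constructor <;> linarith
        linarith
      have hl4 : Real.log 4 ≤ 3 / 2 := by
        have := Real.log_two_lt_d9
        have e : Real.log 4 = 2 * Real.log 2 := by
          rw [show (4:ℝ) = 2 ^ 2 by norm_num, Real.log_pow]; norm_num
        linarith
      have h6 := norm_log_le (L := 3 / 2) h4 (by norm_num) h5 (by
        rw [Real.log_one]; linarith) hl4
      linarith
    calc ‖ℓ (z + a0) - ∑ w ∈ Z, (m w : ℂ) * Complex.log (z + a0 - w)‖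
        ≤ ‖ℓ (z + a0)‖ + ‖∑ w ∈ Z, (m w : ℂ) * Complex.log (z + a0 - w)‖ :=
          norm_sub_le _ _
      _ ≤ K₀ + ∑ w ∈ Z, ‖(m w : ℂ) * Complex.log (z + a0 - w)‖ := by
          gcongr; exact norm_sum_le _ _
      _ ≤ K₀ + ∑ w ∈ Z, (m w : ℝ) * 5 := by
          gcongr with w hw
          rw [norm_mul, Complex.norm_natCast]
          exact mul_le_mul_of_nonneg_left (e2 w hw) (by positivity)
      _ = K₀ + 5 * ((∑ w ∈ Z, m w : ℕ) : ℝ) := by
          rw [← Finset.sum_mul]; push_cast; ring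
      _ ≤ K₀ + 5 * n := by
          have : ((∑ w ∈ Z, m w : ℕ) : ℝ) ≤ n := by exact_mod_cast hmn
          linarith
  -- conclusion
  have hsc : s - a0 ∈ closure (rect (2 - 2 * δ) h) := by
    rw [closure_rect hW hh, mem_reProdIm, Complex.sub_re, Complex.sub_im, ha0re, ha0im]
    rw [abs_le] at hs3
    exact ⟨⟨by linarith, by linarith⟩, ⟨by linarith, by linarith⟩⟩
  have hsb := schwarz_bound hW hh hb0 hbM hHc hHre hHedge hsc
  rw [sub_add_cancel] at hsb
  have hsU : s ∈ U := by
    have := hmemU _ hsc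
    rwa [sub_add_cancel] at this
  have hfs : ‖f s‖ = (∏ w ∈ Z, ‖s - w‖ ^ (m w)) * Real.exp (H s).re := by
    rw [hge s hsU, norm_mul, norm_prod, ← hHe s hsU, Complex.norm_exp]
    simp only [norm_pow]
    rfl
  have hprod : (∏ w ∈ Z, ‖s - w‖ ^ (m w)) ≤ Real.exp (2 * n) := by
    have h4 : ∀ w ∈ Z, ‖s - w‖ ≤ Real.exp 2 := by
      intro w hw
      have hwU := ((hZ w).mp hw).1
      have hw1 := hZre w hw
      have hw2 : 1 / 2 + δ < w.re := hwU.1
      have hw3 : |w.im - c| < h := hwU.2.2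
      rw [abs_lt] at hw3
      rw [abs_le] at hs3
      refine (Complex.norm_le_abs_re_add_abs_im _).trans ?_
      rw [Complex.sub_re, Complex.sub_im]
      have h6 : |s.re - w.re| ≤ 2 := by rw [abs_le]; constructor <;> linarith
      have h7 : |s.im - w.im| ≤ 3 / 2 := by rw [abs_le]; constructor <;> linarith
      have h8 : (4:ℝ) ≤ Real.exp 2 := by
        have h9 := Real.exp_one_gt_d9
        have h10 : Real.exp 2 = Real.exp 1 * Real.exp 1 := by rw [← Real.exp_add]; norm_num
        rw [h10]; nlinarith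
      linarith
    calc (∏ w ∈ Z, ‖s - w‖ ^ (m w)) ≤ ∏ w ∈ Z, (Real.exp 2) ^ (m w) := by
          apply Finset.prod_le_prod
          · intro w _; positivity
          · intro w hw
            exact pow_le_pow_left₀ (norm_nonneg _) (h4 w hw) _
      _ = (Real.exp 2) ^ (∑ w ∈ Z, m w) := by rw [Finset.prod_pow_eq_pow_sum]
      _ ≤ (Real.exp 2) ^ n := by
          apply pow_le_pow_right₀ _ hmn
          exact Real.one_le_exp (by norm_num)
      _ = Real.exp (2 * n) := by rw [← Real.exp_nat_mul]; congr 1; ring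
  rw [hfs, add_comm (4 * _ * _ : ℝ) _, Real.exp_add]
  have he : s - ((1 / 2 + 2 * δ : ℝ) : ℂ) - c * I = s - a0 := by rw [ha0]; ring
  rw [he]
  gcongr

end Pool.Agent.H61.GLM
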